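import Mathlib
import Pool.Agent.H767R2.Exist3

set_option autoImplicit false

/-!
# Characteristic factors of polynomial averages for Weyl systems

For every essentially distinct family `𝒫` of integer polynomials with at least two elements,
`d^W_min(𝒫) ≤ |𝒫| - 1`.
-/

namespace Pool.Agent.Results.MP_467fc0_an.CharacteristicBound

open Pool.Agent.H767R2

/-- For every essentially distinct family `𝒫 ⊂ ℤ[t]` with `|𝒫| ≥ 2`, we have
`d^W_min(𝒫) ≤ |𝒫| - 1`: on every Weyl system the Host–Kra factor `𝒵_{|𝒫|-1,T}` exists and is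
characteristic for mean convergence of the polynomial averages of the family `𝒫`. -/
theorem result (P : Finset (Polynomial ℤ)) (hP : EssentiallyDistinct P) (h2 : 2 ≤ P.card) :
    dWmin P ≤ P.card - 1 ∧
      ∀ W : WeylSystem,
        (∃ 𝒵 : MeasurableSpace (Fin W.D → UnitAddCircle),
          IsHKFactor 𝒵 (haarT W.D) W.T (P.card - 1)) ∧
        ∀ 𝒵 : MeasurableSpace (Fin W.D → UnitAddCircle),
          IsHKFactor 𝒵 (haarT W.D) W.T (P.card - 1) → IsCharacteristic 𝒵 (haarT W.D) W.T P :=
  ⟨dWmin_le P hP h2, fun W =>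
    ⟨W.exists_hkFactor (P.card - 1), characteristic_card_sub_one P hP h2 W⟩⟩

end Pool.Agent.Results.MP_467fc0_an.CharacteristicBound
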